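import Mathlib
import Pool.Agent.Lib.NOT62.FinalP

namespace Pool.Agent.Results.MP_261e51_al.NottinghamOdd

open Pool.Agent.Lib.NOT62

/-- Let `p` be an odd prime, `J = N(p)` the Nottingham group over the field with `p` elements and
`G` a `(2 p + 1)`-approximation to `J`: an infinite pro-`p` group with
`G / γ_(2p+1)(G) ≅ J / γ_(2p+1)(J)`. Then `γ_i(G) / γ_(i+1)(G) ≅ γ_i(J) / γ_(i+1)(J)` for every
`i ≥ 1` that is not exceptional, and for exceptional `i` the factor of `G` is isomorphic to that of
`J` or to its product with `C_p`. -/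
theorem result (p : ℕ) [Fact p.Prime] (hp : p ≠ 2) (G : Type*) [Group G] [TopologicalSpace G]
    [IsTopologicalGroup G] (h : IsApproximation p G (Nottingham p) (2 * p + 1)) (i : ℕ)
    (hi : 1 ≤ i) :
    (¬ Exceptional p i → Nonempty (Factor G i ≃* Factor (Nottingham p) i)) ∧
    (Exceptional p i → Nonempty (Factor G i ≃* Factor (Nottingham p) i) ∨
      Nonempty (Factor G i ≃* Factor (Nottingham p) i × Multiplicative (ZMod p))) :=
  main3 hp h i hi

end Pool.Agent.Results.MP_261e51_al.NottinghamOdd
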